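import Pool.Agent.X277.GS.Fox

/-!
# The Golod-Shafarevich inequality
-/

set_option autoImplicit false

open Set Function

noncomputable section

namespace Pool.Agent.X277.GS

variable {p : ℕ} {Γ : Type} [Group Γ]

/-- the powers of the augmentation ideal, as subspaces -/
def IK (p : ℕ) (Γ : Type) [Group Γ] (n : ℕ) : Submodule (ZMod p) (KG p Γ) :=
  (AI p Γ ^ n).restrictScalars (ZMod p)

theorem mem_IK {n : ℕ} {a : KG p Γ} : a ∈ IK p Γ n ↔ a ∈ AI p Γ ^ n := Iff.rfl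

theorem IK_mul {n : ℕ} {a c : KG p Γ} (ha : a ∈ IK p Γ n) : a * c ∈ IK p Γ n :=
  Ideal.mul_mem_right _ _ (mem_IK.1 ha)

theorem IK_mul_succ {n : ℕ} {a c : KG p Γ} (ha : a ∈ IK p Γ n) (hc : c ∈ AI p Γ) :
    a * c ∈ IK p Γ (n + 1) := by
  rw [mem_IK, Ideal.IsTwoSided.pow_add, Submodule.pow_one]
  exact Ideal.mul_mem_mul ha hc

/-- the quotient -/
abbrev Q (p : ℕ) (Γ : Type) [Group Γ] (n : ℕ) : Type := KG p Γ ⧸ IK p Γ n

/-- right multiplication on the quotients -/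
def mR {n n' : ℕ} (c : KG p Γ) (h : ∀ a ∈ IK p Γ n, a * c ∈ IK p Γ n') :
    Q p Γ n →ₗ[ZMod p] Q p Γ n' :=
  Submodule.mapQ _ _ (LinearMap.mulRight (ZMod p) c) h

theorem mR_mk {n n' : ℕ} (c : KG p Γ) (h : ∀ a ∈ IK p Γ n, a * c ∈ IK p Γ n') (a : KG p Γ) :
    mR c h ((IK p Γ n).mkQ a) = (IK p Γ n').mkQ (a * c) := rfl

variable {d : ℕ}

/-- the map induced by `Ψ` -/
def Phi (p : ℕ) (x : Fin d → Γ) (n : ℕ) : (Fin d → Q p Γ n) →ₗ[ZMod p] Q p Γ (n + 1) :=
  ∑ i, (mR (ge p (x i) - 1) fun _ ha => IK_mul_succ ha (ge_sub_mem _)) ∘ₗ LinearMap.proj i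

theorem Phi_mk (x : Fin d → Γ) (n : ℕ) (a : Fin d → KG p Γ) :
    Phi p x n (fun i => (IK p Γ n).mkQ (a i)) = (IK p Γ (n + 1)).mkQ (Psi x a) := by
  rw [Phi, LinearMap.sum_apply, Psi, map_sum]
  rfl

theorem exists_rep (n : ℕ) {ι : Type} (q : ι → Q p Γ n) :
    ∃ a : ι → KG p Γ, q = fun i => (IK p Γ n).mkQ (a i) := by
  choose a ha using fun i => (IK p Γ n).mkQ_surjective (q i)
  exact ⟨a, funext fun i => (ha i).symm⟩

theorem one_notMem [Fact p.Prime] : (1 : KG p Γ) ∉ AI p Γ := by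
  rw [mem_AI, map_one]
  exact one_ne_zero

theorem AI_pow_le (n : ℕ) : AI p Γ ^ (n + 1) ≤ AI p Γ ^ n := Ideal.pow_le_pow_right (Nat.le_succ n)

theorem AI_pow_le_AI (n : ℕ) : AI p Γ ^ (n + 1) ≤ AI p Γ := by
  have := Ideal.pow_le_pow_right (I := AI p Γ) (show 1 ≤ n + 1 by omega)
  rwa [Submodule.pow_one] at this

theorem sub_aug_mem (a : KG p Γ) : a - aug p Γ a • 1 ∈ AI p Γ := by
  rw [mem_AI, map_sub, map_smul, map_one, smul_eq_mul, mul_one, sub_self]

theorem finite_Q [Fact p.Prime] (x : Fin d → Γ) (hx : Subgroup.closure (range x) = ⊤) (n : ℕ) :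
    Module.Finite (ZMod p) (Q p Γ n) := by
  induction n with
  | zero =>
    have h1 : Subsingleton (Q p Γ 0) := by
      rw [Submodule.Quotient.subsingleton_iff, eq_top_iff]
      intro a _
      rw [mem_IK, Submodule.pow_zero, Ideal.one_eq_top]
      trivial
    infer_instance
  | succ n ih =>
    let F : (Fin d → Q p Γ n) × ZMod p →ₗ[ZMod p] Q p Γ (n + 1) :=
      (Phi p x n).coprod (LinearMap.toSpanSingleton (ZMod p) _ ((IK p Γ (n + 1)).mkQ 1))
    refine Module.Finite.of_surjective F fun q => ?_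
    obtain ⟨a, rfl⟩ := (IK p Γ (n + 1)).mkQ_surjective q
    obtain ⟨c, hc⟩ := exists_Psi x hx (sub_aug_mem a)
    refine ⟨(fun i => (IK p Γ n).mkQ (c i), aug p Γ a), ?_⟩
    rw [LinearMap.coprod_apply, Phi_mk, hc, LinearMap.toSpanSingleton_apply, ← map_smul, ← map_add,
      sub_add_cancel]

/-- the map given by generators of the relation module -/
def The {t s n : ℕ} (w : Fin t → Fin d → KG p Γ) (ξ : Fin s → Fin d → KG p Γ)
    (hξ : ∀ j l, ξ j l ∈ AI p Γ) :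
    ((Fin t → Q p Γ (n + 1)) × (Fin s → Q p Γ n)) →ₗ[ZMod p] (Fin d → Q p Γ (n + 1)) :=
  LinearMap.pi fun l =>
    (∑ i, (mR (w i l) fun _ ha => IK_mul ha) ∘ₗ LinearMap.proj i).coprod
      (∑ j, (mR (ξ j l) fun _ ha => IK_mul_succ ha (hξ j l)) ∘ₗ LinearMap.proj j)

theorem The_mk {t s n : ℕ} (w : Fin t → Fin d → KG p Γ) (ξ : Fin s → Fin d → KG p Γ)
    (hξ : ∀ j l, ξ j l ∈ AI p Γ) (u : Fin t → KG p Γ) (v : Fin s → KG p Γ) :
    The (n := n) w ξ hξ (fun i => (IK p Γ (n + 1)).mkQ (u i), fun j => (IK p Γ n).mkQ (v j)) =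
      fun l => (IK p Γ (n + 1)).mkQ ((∑ i, u i • w i + ∑ j, v j • ξ j : Fin d → KG p Γ) l) := by
  funext l
  rw [Pi.add_apply, Finset.sum_apply, Finset.sum_apply, map_add, map_sum, map_sum]
  show (∑ i, (mR (w i l) fun _ ha => IK_mul ha) ∘ₗ LinearMap.proj i) _ +
    (∑ j, (mR (ξ j l) fun _ ha => IK_mul_succ ha (hξ j l)) ∘ₗ LinearMap.proj j) _ = _
  rw [LinearMap.sum_apply, LinearMap.sum_apply]
  rfl

/-- the dimension of the quotient -/
def b (p : ℕ) (Γ : Type) [Group Γ] (n : ℕ) : ℕ := Module.finrank (ZMod p) (Q p Γ n)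

theorem one_le_b [Fact p.Prime] (x : Fin d → Γ) (hx : Subgroup.closure (range x) = ⊤) (n : ℕ) :
    1 ≤ b p Γ (n + 1) := by
  have := finite_Q (p := p) x hx (n + 1)
  have h1 : Nontrivial (Q p Γ (n + 1)) := by
    rw [Submodule.Quotient.nontrivial_iff]
    intro h
    apply one_notMem (p := p) (Γ := Γ)
    apply AI_pow_le_AI n
    rw [← mem_IK, h]
    trivial
  exact Module.finrank_pos

/-- **The Golod-Shafarevich inequality.** -/
theorem gs_ineq [Fact p.Prime] (x : Fin d → Γ) {m : ℕ} (r : Fin m → FreeGroup (Fin d))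
    (hsurj : Surjective (FreeGroup.lift x))
    (hker : (FreeGroup.lift x).ker = Subgroup.normalClosure (range r))
    {t s : ℕ} (w : Fin t → Fin d → KG p Γ) (ξ : Fin s → Fin d → KG p Γ)
    (hξ : ∀ j l, ξ j l ∈ AI p Γ)
    (hRM : ∀ a ∈ RM p x r, ∃ (u : Fin t → KG p Γ) (v : Fin s → KG p Γ),
      a = ∑ i, u i • w i + ∑ j, v j • ξ j) (n : ℕ) :
    d * b p Γ (n + 1) + 1 ≤ b p Γ (n + 2) + (t * b p Γ (n + 1) + s * b p Γ n) := by
  have hx : Subgroup.closure (range x) = ⊤ := by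
    rw [← FreeGroup.range_lift_eq_closure]
    exact MonoidHom.range_eq_top.2 hsurj
  have hfin := fun n => finite_Q (p := p) x hx n
  have := hfin n
  have := hfin (n + 1)
  have := hfin (n + 2)
  have := hfin (n + 1 + 1)
  -- the kernel
  have h1 : LinearMap.ker (Phi p x (n + 1)) ≤ LinearMap.range (The (n := n) w ξ hξ) := by
    intro q hq
    obtain ⟨a, rfl⟩ := exists_rep (n + 1) q
    rw [LinearMap.mem_ker, Phi_mk] at hq
    have h2 : Psi x a ∈ AI p Γ ^ (n + 1 + 1) := (Submodule.Quotient.mk_eq_zero _).1 hq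
    obtain ⟨c, hc, hca⟩ := exists_Psi_pow x hx (n + 1) h2
    have h3 : Psi x (a - c) = 0 := by
      rw [← sub_eq_zero, ← neg_sub, neg_eq_zero] at hca
      rw [← hca, Psi, Psi, Psi, ← Finset.sum_sub_distrib]
      exact Finset.sum_congr rfl fun i _ => sub_mul _ _ _
    obtain ⟨u, v, huv⟩ := hRM _ (mem_RM_of_Psi x r hsurj hker h3)
    refine ⟨(fun i => (IK p Γ (n + 1)).mkQ (u i), fun j => (IK p Γ n).mkQ (v j)), ?_⟩
    rw [The_mk, ← huv]
    funext l
    rw [Pi.sub_apply, map_sub, sub_eq_self]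
    exact (Submodule.Quotient.mk_eq_zero _).2 (hc l)
  -- the range is proper
  have h2 : LinearMap.range (Phi p x (n + 1)) < ⊤ := by
    rw [lt_top_iff_ne_top]
    intro h
    have h3 : (IK p Γ (n + 1 + 1)).mkQ 1 ∈ LinearMap.range (Phi p x (n + 1)) := by
      rw [h]
      trivial
    obtain ⟨q, hq⟩ := h3
    obtain ⟨a, rfl⟩ := exists_rep (n + 1) q
    rw [Phi_mk] at hq
    have h4 := (Submodule.Quotient.eq _).1 hq
    have h5 : Psi x a - 1 ∈ AI p Γ := AI_pow_le_AI (n + 1) h4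
    have h6 : Psi x a ∈ AI p Γ := by
      have h7 := Psi_mem_pow (p := p) x 0 (c := a) fun i => by
        rw [Submodule.pow_zero, Ideal.one_eq_top]
        trivial
      rwa [zero_add, Submodule.pow_one] at h7
    apply one_notMem (p := p) (Γ := Γ)
    have h8 := Ideal.sub_mem _ h6 h5
    rwa [sub_sub_cancel] at h8
  have h3 := Submodule.finrank_lt h2.ne
  have h4 := LinearMap.finrank_range_add_finrank_ker (Phi p x (n + 1))
  have h5 : Module.finrank (ZMod p) (LinearMap.ker (Phi p x (n + 1))) ≤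
      t * b p Γ (n + 1) + s * b p Γ n := by
    refine (Submodule.finrank_mono h1).trans ((LinearMap.finrank_range_le _).trans ?_)
    rw [Module.finrank_prod, Module.finrank_pi_fintype, Module.finrank_pi_fintype]
    simp [b]
  have h6 : Module.finrank (ZMod p) (Fin d → Q p Γ (n + 1)) = d * b p Γ (n + 1) := by
    rw [Module.finrank_pi_fintype]
    simp [b]
  rw [h6] at h4
  have h7 : Module.finrank (ZMod p) (Q p Γ (n + 1 + 1)) = b p Γ (n + 2) := rfl
  omega

/-- the induction -/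
theorem b_lower [Fact p.Prime] {e s : ℕ} {ρ : ℝ} (hρ : 0 < ρ) (h : ρ ^ 2 + s ≤ e * ρ)
    (h1 : 1 ≤ b p Γ 1) (h0 : b p Γ 0 = 0)
    (hb : ∀ n, e * b p Γ (n + 1) + 1 ≤ b p Γ (n + 2) + s * b p Γ n) (k : ℕ) :
    ∑ i ∈ Finset.range k, ρ ^ i ≤ b p Γ k := by
  have key : ∀ n, 1 + ρ * b p Γ n ≤ b p Γ (n + 1) := by
    intro n
    induction n with
    | zero =>
      rw [h0]
      simp only [Nat.cast_zero, mul_zero, add_zero]
      exact_mod_cast h1
    | succ n ih =>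
      have h2 : (e : ℝ) * b p Γ (n + 1) + 1 ≤ b p Γ (n + 2) + s * b p Γ n := by
        exact_mod_cast hb n
      have h3 : ρ * (1 + ρ * b p Γ (n + 1)) ≤ ρ * b p Γ (n + 2) := by
        have h4 : (s : ℝ) * (1 + ρ * b p Γ n) ≤ s * b p Γ (n + 1) :=
          mul_le_mul_of_nonneg_left ih (Nat.cast_nonneg s)
        have h5 : (ρ ^ 2 + s) * b p Γ (n + 1) ≤ e * ρ * b p Γ (n + 1) :=
          mul_le_mul_of_nonneg_right h (Nat.cast_nonneg _)
        have h6 : ρ * ((e : ℝ) * b p Γ (n + 1) + 1) ≤ ρ * (b p Γ (n + 2) + s * b p Γ n) :=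
          mul_le_mul_of_nonneg_left h2 hρ.le
        have h7 : (0 : ℝ) ≤ s := Nat.cast_nonneg s
        nlinarith
      exact le_of_mul_le_mul_left h3 hρ
  induction k with
  | zero => simp
  | succ k ih =>
    rw [Finset.sum_range_succ']
    calc ∑ i ∈ Finset.range k, ρ ^ (i + 1) + ρ ^ 0
        = 1 + ρ * ∑ i ∈ Finset.range k, ρ ^ i := by
          rw [Finset.mul_sum, pow_zero, add_comm]
          congr 1
          exact Finset.sum_congr rfl fun i _ => pow_succ' ρ i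
      _ ≤ 1 + ρ * b p Γ k := by
          have := mul_le_mul_of_nonneg_left ih hρ.le
          linarith
      _ ≤ b p Γ (k + 1) := key k

end Pool.Agent.X277.GS
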