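import Mathlib

/-!
# The augmentation ideal and the relation module
-/

set_option autoImplicit false

open Set Function

noncomputable section

namespace Pool.Agent.X277.GS

variable (p : ℕ) (Γ : Type) [Group Γ]

/-- the group algebra -/
abbrev KG : Type := MonoidAlgebra (ZMod p) Γ

/-- the augmentation -/
def aug : KG p Γ →ₐ[ZMod p] ZMod p := MonoidAlgebra.lift (ZMod p) (ZMod p) Γ 1

/-- the augmentation ideal -/
def AI : Ideal (KG p Γ) := RingHom.ker (aug p Γ)

instance : (AI p Γ).IsTwoSided := inferInstanceAs (RingHom.ker (aug p Γ)).IsTwoSided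

variable {p Γ}

/-- a group element -/
abbrev ge (p : ℕ) {Γ : Type} [Group Γ] (g : Γ) : KG p Γ := MonoidAlgebra.of (ZMod p) Γ g

theorem aug_ge (g : Γ) : aug p Γ (ge p g) = 1 := by
  rw [aug, MonoidAlgebra.lift_of]
  rfl

theorem mem_AI {a : KG p Γ} : a ∈ AI p Γ ↔ aug p Γ a = 0 := RingHom.mem_ker

theorem ge_mul (g h : Γ) : ge p (g * h) = ge p g * ge p h := map_mul _ _ _

theorem ge_one : ge p (1 : Γ) = 1 := map_one _

theorem ge_inv_mul (g : Γ) : ge p g⁻¹ * ge p g = 1 := by
  rw [← ge_mul, inv_mul_cancel, ge_one]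

theorem ge_mul_inv (g : Γ) : ge p g * ge p g⁻¹ = 1 := by
  rw [← ge_mul, mul_inv_cancel, ge_one]

theorem ge_sub_mem (g : Γ) : ge p g - 1 ∈ AI p Γ := by
  rw [mem_AI, map_sub, aug_ge, map_one, sub_self]

variable {d : ℕ}

/-- The left ideal generated by the `x i - 1` is the augmentation ideal. -/
theorem AI_eq_span (x : Fin d → Γ) (hx : Subgroup.closure (range x) = ⊤) :
    AI p Γ = Submodule.span (KG p Γ) (range fun i => ge p (x i) - 1) := by
  apply le_antisymm
  · set J := Submodule.span (KG p Γ) (range fun i => ge p (x i) - 1) with hJ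
    let H : Subgroup Γ :=
      { carrier := {g | ge p g - 1 ∈ J}
        mul_mem' := by
          intro a b ha hb
          show ge p (a * b) - 1 ∈ J
          have h1 : ge p (a * b) - 1 = ge p a • (ge p b - 1) + (ge p a - 1) := by
            rw [ge_mul, smul_eq_mul, mul_sub, mul_one]
            abel
          rw [h1]
          exact J.add_mem (J.smul_mem _ hb) ha
        one_mem' := by
          show ge p 1 - 1 ∈ J
          rw [ge_one, sub_self]
          exact J.zero_mem
        inv_mem' := by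
          intro a ha
          show ge p a⁻¹ - 1 ∈ J
          have h1 : ge p a⁻¹ - 1 = -(ge p a⁻¹ • (ge p a - 1)) := by
            rw [smul_eq_mul, mul_sub, mul_one, ge_inv_mul]
            abel
          rw [h1]
          exact J.neg_mem (J.smul_mem _ ha) }
    have hH : ∀ g, ge p g - 1 ∈ J := by
      intro g
      have h1 : Subgroup.closure (range x) ≤ H := by
        rw [Subgroup.closure_le]
        rintro _ ⟨i, rfl⟩
        exact Submodule.subset_span ⟨i, rfl⟩
      exact h1 (hx ▸ Subgroup.mem_top g)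
    have key : ∀ a : KG p Γ, a - aug p Γ a • 1 ∈ J := by
      intro a
      induction a using MonoidAlgebra.induction_on with
      | of m =>
        show ge p m - aug p Γ (ge p m) • 1 ∈ J
        rw [aug_ge, one_smul]
        exact hH m
      | add a b ha hb =>
        rw [map_add, add_smul]
        have : a + b - (aug p Γ a • (1 : KG p Γ) + aug p Γ b • (1 : KG p Γ)) =
          (a - aug p Γ a • 1) + (b - aug p Γ b • 1) := by abel
        rw [this]
        exact J.add_mem ha hb
      | smul c a ha =>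
        rw [map_smul, smul_eq_mul, mul_smul, ← smul_sub]
        exact J.smul_of_tower_mem c ha
    intro a ha
    have h1 := key a
    rw [mem_AI.1 ha, zero_smul, sub_zero] at h1
    exact h1
  · rw [Submodule.span_le]
    rintro _ ⟨i, rfl⟩
    exact ge_sub_mem _

/-- `Ψ(a) = ∑ a i (x i - 1)` -/
def Psi (x : Fin d → Γ) (a : Fin d → KG p Γ) : KG p Γ := ∑ i, a i * (ge p (x i) - 1)

theorem exists_Psi (x : Fin d → Γ) (hx : Subgroup.closure (range x) = ⊤) {a : KG p Γ}
    (ha : a ∈ AI p Γ) : ∃ c : Fin d → KG p Γ, Psi x c = a := by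
  rw [AI_eq_span x hx] at ha
  obtain ⟨c, hc⟩ := (Submodule.mem_span_range_iff_exists_fun _).1 ha
  exact ⟨c, hc⟩

theorem exists_Psi_pow (x : Fin d → Γ) (hx : Subgroup.closure (range x) = ⊤) (n : ℕ) {a : KG p Γ}
    (ha : a ∈ AI p Γ ^ (n + 1)) :
    ∃ c : Fin d → KG p Γ, (∀ i, c i ∈ AI p Γ ^ n) ∧ Psi x c = a := by
  rcases Nat.eq_zero_or_pos n with rfl | hn
  · rw [zero_add, Submodule.pow_one] at ha
    obtain ⟨c, hc⟩ := exists_Psi x hx ha
    refine ⟨c, fun i => ?_, hc⟩
    rw [Submodule.pow_zero, Ideal.one_eq_top]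
    trivial
  rw [Ideal.IsTwoSided.pow_add, Submodule.pow_one] at ha
  refine Submodule.smul_induction_on ha ?_ ?_
  · intro r hr b hb
    obtain ⟨c, rfl⟩ := exists_Psi x hx hb
    refine ⟨fun i => r * c i, fun i => ?_, ?_⟩
    · exact Ideal.mul_mem_right _ _ hr
    · rw [smul_eq_mul, Psi, Psi, Finset.mul_sum]
      exact Finset.sum_congr rfl fun i _ => mul_assoc _ _ _
  · rintro _ _ ⟨c, hc, rfl⟩ ⟨c', hc', rfl⟩
    refine ⟨fun i => c i + c' i, fun i => Ideal.add_mem _ (hc i) (hc' i), ?_⟩
    rw [Psi, Psi, Psi, ← Finset.sum_add_distrib]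
    exact Finset.sum_congr rfl fun i _ => add_mul _ _ _

theorem Psi_mem_pow (x : Fin d → Γ) (n : ℕ) {c : Fin d → KG p Γ} (hc : ∀ i, c i ∈ AI p Γ ^ n) :
    Psi x c ∈ AI p Γ ^ (n + 1) := by
  refine Submodule.sum_mem _ fun i _ => ?_
  rw [Ideal.IsTwoSided.pow_add, Submodule.pow_one]
  exact Ideal.mul_mem_mul (hc i) (ge_sub_mem _)

/-! ### Fox calculus -/

variable (x : Fin d → Γ)

/-- an affine map -/
def aff (g : Γ) (m : Fin d → KG p Γ) : Equiv.Perm (Fin d → KG p Γ) where
  toFun v := ge p g • v + m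
  invFun v := ge p g⁻¹ • (v - m)
  left_inv v := by
    show ge p g⁻¹ • (ge p g • v + m - m) = v
    rw [add_sub_cancel_right, smul_smul, ge_inv_mul, one_smul]
  right_inv v := by
    show ge p g • (ge p g⁻¹ • (v - m)) + m = v
    rw [smul_smul, ge_mul_inv, one_smul, sub_add_cancel]

/-- the affine action of the free group -/
def affHom (p : ℕ) (x : Fin d → Γ) : FreeGroup (Fin d) →* Equiv.Perm (Fin d → KG p Γ) :=
  FreeGroup.lift fun i => aff (x i) (Pi.single i 1)

/-- the Fox derivatives -/
def fox (p : ℕ) (x : Fin d → Γ) (w : FreeGroup (Fin d)) : Fin d → KG p Γ := affHom p x w 0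

theorem affHom_apply (w : FreeGroup (Fin d)) : ∀ v : Fin d → KG p Γ,
    affHom p x w v = ge p (FreeGroup.lift x w) • v + fox p x w := by
  induction w using FreeGroup.induction_on with
  | C1 =>
    intro v
    rw [fox, map_one, map_one, ge_one, one_smul]
    simp
  | of i =>
    intro v
    have h1 : ∀ v : Fin d → KG p Γ, affHom p x (FreeGroup.of i) v = ge p (x i) • v + Pi.single i 1 := by
      intro v
      rw [affHom, FreeGroup.lift_apply_of]
      rfl
    show affHom p x (FreeGroup.of i) v = ge p (FreeGroup.lift x (FreeGroup.of i)) • v +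
      affHom p x (FreeGroup.of i) 0
    rw [h1, h1, smul_zero, zero_add, FreeGroup.lift_apply_of]
  | inv_of i h =>
    intro v
    have h0 : ∀ v : Fin d → KG p Γ, affHom p x ((FreeGroup.of i)⁻¹) v =
        ge p (x i)⁻¹ • (v - Pi.single i 1) := by
      intro v
      rw [affHom, map_inv, FreeGroup.lift_apply_of]
      rfl
    show affHom p x ((FreeGroup.of i)⁻¹) v = ge p (FreeGroup.lift x ((FreeGroup.of i)⁻¹)) • v +
      affHom p x ((FreeGroup.of i)⁻¹) 0
    rw [h0, h0, zero_sub, map_inv, FreeGroup.lift_apply_of, ← smul_add, sub_eq_add_neg]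
  | mul u w hu hw =>
    intro v
    have h1 : fox p x (u * w) = ge p (FreeGroup.lift x u) • fox p x w + fox p x u := by
      rw [fox, map_mul, Equiv.Perm.mul_apply, hu]
      rfl
    rw [h1, map_mul, Equiv.Perm.mul_apply, hu, hw, map_mul, ge_mul, mul_smul, smul_add, add_assoc]

theorem fox_mul (u w : FreeGroup (Fin d)) :
    (fox p x (u * w) : Fin d → KG p Γ) = ge p (FreeGroup.lift x u) • fox p x w + fox p x u := by
  rw [fox, map_mul, Equiv.Perm.mul_apply, affHom_apply]
  rfl

theorem fox_one : (fox p x 1 : Fin d → KG p Γ) = 0 := by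
  rw [fox, map_one]
  rfl

theorem fox_of (i : Fin d) : (fox p x (FreeGroup.of i) : Fin d → KG p Γ) = Pi.single i 1 := by
  rw [fox, affHom, FreeGroup.lift_apply_of]
  show ge p (x i) • (0 : Fin d → KG p Γ) + Pi.single i 1 = _
  rw [smul_zero, zero_add]

theorem fox_inv (w : FreeGroup (Fin d)) :
    (fox p x w⁻¹ : Fin d → KG p Γ) = -(ge p (FreeGroup.lift x w)⁻¹ • fox p x w) := by
  have h1 : (fox p x (w⁻¹ * w) : Fin d → KG p Γ) = 0 := by rw [inv_mul_cancel, fox_one]
  rw [fox_mul, map_inv] at h1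
  exact eq_neg_of_add_eq_zero_right h1

/-- the relation module -/
def RM (p : ℕ) (x : Fin d → Γ) {m : ℕ} (r : Fin m → FreeGroup (Fin d)) : Submodule (KG p Γ) (Fin d → KG p Γ) :=
  Submodule.span (KG p Γ) (range fun j => fox p x (r j))

theorem fox_mem_RM {m : ℕ} (r : Fin m → FreeGroup (Fin d)) (hr : ∀ j, FreeGroup.lift x (r j) = 1)
    {w : FreeGroup (Fin d)} (hw : w ∈ Subgroup.normalClosure (range r)) :
    FreeGroup.lift x w = 1 ∧ fox p x w ∈ RM p x r := by
  let N : Subgroup (FreeGroup (Fin d)) :=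
    { carrier := {w | FreeGroup.lift x w = 1 ∧ fox p x w ∈ RM p x r}
      mul_mem' := by
        rintro a b ⟨ha, ha'⟩ ⟨hb, hb'⟩
        refine ⟨by rw [map_mul, ha, hb, mul_one], ?_⟩
        rw [fox_mul]
        exact Submodule.add_mem _ (Submodule.smul_mem _ _ hb') ha'
      one_mem' := ⟨map_one _, by rw [fox_one]; exact Submodule.zero_mem _⟩
      inv_mem' := by
        rintro a ⟨ha, ha'⟩
        refine ⟨by rw [map_inv, ha, inv_one], ?_⟩
        rw [fox_inv]
        exact Submodule.neg_mem _ (Submodule.smul_mem _ _ ha') }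
  have hN : N.Normal := by
    refine ⟨?_⟩
    rintro a ⟨ha, ha'⟩ g
    have h1 : FreeGroup.lift x (g * a * g⁻¹) = 1 := by
      rw [map_mul, map_mul, ha, mul_one, map_inv, mul_inv_cancel]
    refine ⟨h1, ?_⟩
    rw [fox_mul, fox_mul, fox_inv, map_mul, ha, mul_one, smul_neg, smul_smul, ge_mul_inv, one_smul]
    have h2 : -fox p x g + (ge p (FreeGroup.lift x g) • fox p x a + fox p x g) =
      ge p (FreeGroup.lift x g) • fox p x a := by abel
    rw [h2]
    exact Submodule.smul_mem _ _ ha'
  have h2 : Subgroup.normalClosure (range r) ≤ N := by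
    apply Subgroup.normalClosure_le_normal
    rintro _ ⟨j, rfl⟩
    exact ⟨hr j, Submodule.subset_span ⟨j, rfl⟩⟩
  exact h2 hw

/-- **Exactness**: the kernel of `Ψ` is generated by the Fox derivatives of the relators. -/
theorem mem_RM_of_Psi {m : ℕ} (r : Fin m → FreeGroup (Fin d))
    (hsurj : Surjective (FreeGroup.lift x))
    (hker : (FreeGroup.lift x).ker = Subgroup.normalClosure (range r))
    {a : Fin d → KG p Γ} (ha : Psi x a = 0) : a ∈ RM p x r := by
  have hr : ∀ j, FreeGroup.lift x (r j) = 1 := by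
    intro j
    have : r j ∈ (FreeGroup.lift x).ker := by
      rw [hker]
      exact Subgroup.subset_normalClosure ⟨j, rfl⟩
    exact this
  let σ := surjInv hsurj
  have hσ : ∀ g, FreeGroup.lift x (σ g) = g := surjInv_eq hsurj
  let q := (RM p x r).mkQ
  let δ : Γ → (Fin d → KG p Γ) ⧸ RM p x r := fun g => q (fox p x (σ g))
  have hδ : ∀ w, δ (FreeGroup.lift x w) = q (fox p x w) := by
    intro w
    have h1 : (σ (FreeGroup.lift x w))⁻¹ * w ∈ Subgroup.normalClosure (range r) := by
      rw [← hker, MonoidHom.mem_ker, map_mul, map_inv, hσ, inv_mul_cancel]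
    have h2 := (fox_mem_RM (p := p) x r hr h1).2
    have h3 : fox p x w = ge p (FreeGroup.lift x w) • fox p x ((σ (FreeGroup.lift x w))⁻¹ * w) +
        fox p x (σ (FreeGroup.lift x w)) := by
      have h4 := fox_mul (p := p) x (σ (FreeGroup.lift x w)) ((σ (FreeGroup.lift x w))⁻¹ * w)
      rw [mul_inv_cancel_left, hσ] at h4
      exact h4
    show q (fox p x (σ (FreeGroup.lift x w))) = q (fox p x w)
    rw [h3, map_add, map_smul, (Submodule.Quotient.mk_eq_zero _).2 h2 |> fun h => (show q _ = 0 from h),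
      smul_zero, zero_add]
  have hδ_mul : ∀ g h, δ (g * h) = ge p g • δ h + δ g := by
    intro g h
    have h1 : g * h = FreeGroup.lift x (σ g * σ h) := by rw [map_mul, hσ, hσ]
    rw [h1, hδ, fox_mul, hσ, map_add, map_smul]
  let Δ : KG p Γ →ₗ[ZMod p] (Fin d → KG p Γ) ⧸ RM p x r :=
    (Finsupp.linearCombination (ZMod p) δ) ∘ₗ (MonoidAlgebra.coeffLinearEquiv (ZMod p)).toLinearMap
  have hΔ : ∀ g, Δ (ge p g) = δ g := by
    intro g
    show Finsupp.linearCombination (ZMod p) δ (Finsupp.single g 1) = δ g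
    rw [Finsupp.linearCombination_single, one_smul]
  have hkey : ∀ (g : Γ) (a : KG p Γ), Δ (a * (ge p g - 1)) = a • δ g := by
    intro g a
    induction a using MonoidAlgebra.induction_on with
    | of h =>
      show Δ (ge p h * (ge p g - 1)) = ge p h • δ g
      rw [mul_sub, mul_one, ← ge_mul, map_sub, hΔ, hΔ, hδ_mul, add_sub_cancel_right]
    | add a b ha hb => rw [add_mul, map_add, ha, hb, add_smul]
    | smul c a ha => rw [smul_mul_assoc, map_smul, ha, smul_assoc]
  have h1 : q a = 0 := by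
    have h2 : Δ (Psi x a) = q a := by
      rw [Psi, map_sum]
      have h3 : a = ∑ i, a i • (Pi.single i 1 : Fin d → KG p Γ) := by
        funext j
        rw [Finset.sum_apply, Finset.sum_eq_single j]
        · simp
        · intro i _ hij
          simp [Pi.single_eq_of_ne (Ne.symm hij)]
        · simp
      conv_rhs => rw [h3, map_sum]
      refine Finset.sum_congr rfl fun i _ => ?_
      rw [hkey, map_smul]
      congr 1
      rw [← fox_of x i, ← hδ, FreeGroup.lift_apply_of]
    rw [← h2, ha, map_zero]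
  exact (Submodule.Quotient.mk_eq_zero _).1 h1

end Pool.Agent.X277.GS
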