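import Pool.Agent.X277.GS.Pos
import Pool.Agent.X277.PF.Large

/-!
# Positive words and subgroups of finite index
-/

set_option autoImplicit false

open Set Function

noncomputable section

namespace Pool.Agent.X277.GS

open Pool.Agent.X277.PF

variable {Λ : Type} [Group Λ] {S : Set Λ}

theorem posBall_mul {k l : ℕ} {a b : Λ} (ha : a ∈ posBall S k) (hb : b ∈ posBall S l) :
    a * b ∈ posBall S (k + l) := by
  obtain ⟨w, h1, h2, rfl⟩ := ha
  obtain ⟨w', h1', h2', rfl⟩ := hb
  refine ⟨w ++ w', by rw [List.length_append]; omega, ?_, List.prod_append⟩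
  intro x hx
  rcases List.mem_append.1 hx with h | h
  · exact h2 x h
  · exact h2' x h

theorem mem_posBall_one {s : Λ} (hs : s ∈ S) : s ∈ posBall S 1 :=
  ⟨[s], le_rfl, by simpa using hs, by simp⟩

theorem one_mem_posBall (k : ℕ) : (1 : Λ) ∈ posBall S k := ⟨[], Nat.zero_le _, by simp, rfl⟩

theorem posBall_inv {k : ℕ} {a : Λ} (ha : a ∈ posBall (S⁻¹) k) : a⁻¹ ∈ posBall S k := by
  obtain ⟨w, h1, h2, rfl⟩ := ha
  refine ⟨(w.map fun x => x⁻¹).reverse, by simpa using h1, ?_, (List.prod_inv_reverse w).symm⟩
  intro x hx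
  rw [List.mem_reverse, List.mem_map] at hx
  obtain ⟨y, hy, rfl⟩ := hx
  exact h2 y hy

/-- the points reached from `c` -/
def Reach {C : Type} [MulAction Λ C] (S : Set Λ) (c : C) (k : ℕ) : Set C :=
  {c' | ∃ w ∈ posBall S k, w • c = c'}

theorem reach_univ {C : Type} [Finite C] [MulAction Λ C] [MulAction.IsPretransitive Λ C]
    (hS : Subgroup.closure S = ⊤) (c : C) (c' : C) :
    ∃ w ∈ posBall S (Nat.card C - 1), w • c = c' := by
  have hmono : ∀ k, Reach S c k ⊆ Reach S c (k + 1) := by
    rintro k c' ⟨w, hw, rfl⟩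
    exact ⟨w, posBall_mono S (Nat.le_succ k) hw, rfl⟩
  have key : ∀ k, Reach S c k = univ ∨ k + 1 ≤ (Reach S c k).ncard := by
    intro k
    induction k with
    | zero =>
      right
      rw [zero_add, Nat.one_le_iff_ne_zero]
      intro h
      rw [Set.ncard_eq_zero] at h
      have h1 : c ∈ Reach S c 0 := ⟨1, one_mem_posBall 0, one_smul _ _⟩
      rw [h] at h1
      exact h1
    | succ k ih =>
      rcases ih with h | h
      · left
        rw [eq_univ_iff_forall] at h ⊢
        exact fun y => hmono k (h y)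
      · by_cases heq : Reach S c (k + 1) = Reach S c k
        · left
          -- the set is invariant
          have h1 : ∀ s ∈ S, ∀ y ∈ Reach S c k, s • y ∈ Reach S c k := by
            rintro s hs _ ⟨w, hw, rfl⟩
            rw [← heq]
            refine ⟨s * w, ?_, mul_smul _ _ _⟩
            have := posBall_mul (mem_posBall_one hs) hw
            rwa [add_comm] at this
          have h2 : ∀ s ∈ S, ∀ y, s • y ∈ Reach S c k → y ∈ Reach S c k := by
            intro s hs y hy
            have h3 : (fun z => s • z) '' Reach S c k = Reach S c k := by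
              apply Set.eq_of_subset_of_ncard_le
              · rintro _ ⟨z, hz, rfl⟩
                exact h1 s hs z hz
              · rw [Set.ncard_image_of_injective _ (MulAction.injective s)]
              · exact toFinite _
            rw [← h3] at hy
            obtain ⟨z, hz, hzy⟩ := hy
            rwa [← MulAction.injective s hzy]
          let H : Subgroup Λ :=
            { carrier := {g | ∀ y, g • y ∈ Reach S c k ↔ y ∈ Reach S c k}
              mul_mem' := by
                intro a b ha hb y
                rw [mul_smul]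
                exact (ha _).trans (hb y)
              one_mem' := by
                intro y
                rw [one_smul]
              inv_mem' := by
                intro a ha y
                have := ha (a⁻¹ • y)
                rw [smul_inv_smul] at this
                exact this.symm }
          have hH : Subgroup.closure S ≤ H := by
            rw [Subgroup.closure_le]
            intro s hs y
            exact ⟨h2 s hs y, h1 s hs y⟩
          rw [heq, eq_univ_iff_forall]
          intro y
          obtain ⟨g, hg⟩ := MulAction.exists_smul_eq Λ c y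
          have h3 : g ∈ H := hH (hS ▸ Subgroup.mem_top g)
          rw [← hg]
          exact (h3 c).2 ⟨1, one_mem_posBall k, one_smul _ _⟩
        · right
          have h1 : Reach S c k ⊂ Reach S c (k + 1) :=
            (hmono k).ssubset_of_ne (Ne.symm heq)
          have := Set.ncard_lt_ncard h1 (toFinite _)
          omega
  have hpos : 0 < Nat.card C := Nat.card_pos_iff.2 ⟨⟨c⟩, inferInstance⟩
  have h1 : Reach S c (Nat.card C - 1) = univ := by
    rcases key (Nat.card C - 1) with h | h
    · exact h
    · apply Set.eq_of_subset_of_ncard_le (subset_univ _) _ finite_univ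
      rw [ncard_univ]
      omega
  have h2 : c' ∈ Reach S c (Nat.card C - 1) := by
    rw [h1]
    trivial
  exact h2

theorem closure_inv_top (hS : Subgroup.closure S = ⊤) : Subgroup.closure (S⁻¹) = ⊤ := by
  rw [Subgroup.closure_inv, hS]

/-- **Positive generation of subgroups of finite index.** -/
theorem closure_pos (hS : Subgroup.closure S = ⊤) (H : Subgroup Λ) [hH : H.FiniteIndex] :
    Subgroup.closure {x : H | (x : Λ) ∈ posBall S (2 * H.index - 1)} = ⊤ := by
  have hfin : Finite (Λ ⧸ H) := Subgroup.finite_quotient_of_finiteIndex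
  have hpos : 0 < H.index := Nat.pos_of_ne_zero hH.index_ne_zero
  have hcard : Nat.card (Λ ⧸ H) = H.index := rfl
  let c0 : Λ ⧸ H := ((1 : Λ) : Λ ⧸ H)
  have hc0 : ∀ g : Λ, g • c0 = c0 ↔ g ∈ H := by
    intro g
    have h1 : g • c0 = ((g : Λ) : Λ ⧸ H) := by
      show (((g • (1 : Λ) : Λ)) : Λ ⧸ H) = _
      rw [smul_eq_mul, mul_one]
    rw [h1]
    show ((g : Λ) : Λ ⧸ H) = ((1 : Λ) : Λ ⧸ H) ↔ _
    rw [eq_comm, QuotientGroup.eq]
    simp
  choose t ht htc using fun c => reach_univ (Λ := Λ) (C := Λ ⧸ H) hS c0 c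
  choose u' hu' huc' using fun c => reach_univ (Λ := Λ) (C := Λ ⧸ H) (closure_inv_top hS) c0 c
  set K := Subgroup.closure {x : H | (x : Λ) ∈ posBall S (2 * H.index - 1)} with hK
  let K' : Subgroup Λ := K.map H.subtype
  have hT : ∀ g ∈ posBall S (2 * H.index - 1), g ∈ H → g ∈ K' := fun g hg hgH =>
    ⟨⟨g, hgH⟩, Subgroup.subset_closure hg, rfl⟩
  let u : Λ ⧸ H → Λ := fun c => (u' c)⁻¹
  have hu : ∀ c, u c ∈ posBall S (H.index - 1) := fun c => posBall_inv (hu' c)
  have huc : ∀ c, u c • c = c0 := by
    intro c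
    show (u' c)⁻¹ • c = c0
    rw [inv_smul_eq_iff]
    exact (huc' c).symm
  have hut : ∀ c, u c * t c ∈ K' := by
    intro c
    refine hT _ (posBall_mono S (by omega) (posBall_mul (hu c) (ht c))) ?_
    rw [← hc0, mul_smul, htc, huc]
  let G : Subgroup Λ :=
    { carrier := {g | ∀ c, u (g • c) * g * t c ∈ K'}
      mul_mem' := by
        intro a b ha hb c
        have h1 := ha (b • c)
        have h2 := hb c
        have h3 := hut (b • c)
        have h4 := K'.mul_mem (K'.mul_mem h1 (K'.inv_mem h3)) h2
        rw [mul_smul]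
        have h5 : u (a • b • c) * a * t (b • c) * (u (b • c) * t (b • c))⁻¹ *
            (u (b • c) * b * t c) = u (a • b • c) * (a * b) * t c := by group
        rwa [h5] at h4
      one_mem' := by
        intro c
        rw [one_smul, mul_one]
        exact hut c
      inv_mem' := by
        intro a ha c
        have h1 := ha (a⁻¹ • c)
        rw [smul_inv_smul] at h1
        have h2 := K'.mul_mem (K'.mul_mem (hut (a⁻¹ • c)) (K'.inv_mem h1)) (hut c)
        have h5 : u (a⁻¹ • c) * t (a⁻¹ • c) * (u c * a * t (a⁻¹ • c))⁻¹ * (u c * t c) =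
            u (a⁻¹ • c) * a⁻¹ * t c := by group
        rwa [h5] at h2 }
  have hG : Subgroup.closure S ≤ G := by
    rw [Subgroup.closure_le]
    intro s hs c
    refine hT _ (posBall_mono S (by omega)
      (posBall_mul (posBall_mul (hu (s • c)) (mem_posBall_one hs)) (ht c))) ?_
    rw [← hc0, mul_smul, mul_smul, htc, huc]
  rw [eq_top_iff]
  rintro ⟨g, hg⟩ _
  have h1 : u (g • c0) * g * t c0 ∈ K' := hG (hS ▸ Subgroup.mem_top g) c0
  rw [(hc0 g).2 hg] at h1
  have h2 : u c0 ∈ K' := hT _ (posBall_mono S (by omega) (hu c0)) ((hc0 _).1 (huc c0))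
  have h3 : t c0 ∈ K' := hT _ (posBall_mono S (by omega) (ht c0)) ((hc0 _).1 (htc c0))
  have h4 := K'.mul_mem (K'.mul_mem (K'.inv_mem h2) h1) (K'.inv_mem h3)
  have h5 : (u c0)⁻¹ * (u c0 * g * t c0) * (t c0)⁻¹ = g := by group
  rw [h5] at h4
  obtain ⟨y, hy, hyg⟩ := h4
  have : y = ⟨g, hg⟩ := Subtype.ext hyg
  rwa [← this]

theorem ncard_posBall_le (hSf : S.Finite) (H : Subgroup Λ) (n k : ℕ) :
    (posBall {x : H | (x : Λ) ∈ posBall S n} k).ncard ≤ (posBall S (n * k)).ncard := by
  rw [← Set.ncard_image_of_injective _ H.subtype_injective]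
  apply Set.ncard_le_ncard _ (posBall_finite hSf _)
  rintro _ ⟨g, ⟨l, h1, h2, rfl⟩, rfl⟩
  have key : ∀ l : List H, (∀ x ∈ l, x ∈ {x : H | (x : Λ) ∈ posBall S n}) →
      H.subtype l.prod ∈ posBall S (n * l.length) := by
    intro l
    induction l with
    | nil =>
      intro _
      rw [List.prod_nil, map_one]
      exact one_mem_posBall _
    | cons a l ih =>
      intro h
      rw [List.prod_cons, map_mul, List.length_cons, mul_add, mul_one, add_comm]
      exact posBall_mul (h a (by simp)) (ih fun x hx => h x (by simp [hx]))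
  exact posBall_mono S (Nat.mul_le_mul_left n h1) (key l h2)

/-- **The virtual version.** -/
theorem growth_virtual {p : ℕ} [Fact p.Prime] {Γ F : Type} [Group Γ] [Group F]
    (h : HasQuotientsOf Λ Γ) (Δ : Subgroup Γ) [hΔ : Δ.FiniteIndex] (τ : Δ →* F)
    (hτ : Surjective τ) {d m e : ℕ} (x : Fin d → F)
    (r : Fin m → FreeGroup (Fin d)) (hsurj : Surjective (FreeGroup.lift x))
    (hker : (FreeGroup.lift x).ker = Subgroup.normalClosure (range r))
    (he : Nat.card (F →* Multiplicative (ZMod p)) = p ^ e) {ρ : ℝ} (hρ : 0 < ρ)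
    (hineq : ρ ^ 2 + (m + e - d) ≤ e * ρ) (hSf : S.Finite)
    (hS : Subgroup.closure S = ⊤) (k : ℕ) :
    ∑ i ∈ Finset.range (k + 1), ρ ^ i ≤ (posBall S ((2 * Δ.index - 1) * k)).ncard := by
  have hfg : Group.FG Λ := ⟨⟨hSf.toFinset, by rw [Finite.coe_toFinset]; exact hS⟩⟩
  obtain ⟨H, hH, hHQ⟩ := exists_subgroup_quotients hfg h Δ τ hτ
  have hHf : H.FiniteIndex := ⟨by rw [hH]; exact hΔ.index_ne_zero⟩
  have h1 := closure_pos hS H
  have h2 : {x : H | (x : Λ) ∈ posBall S (2 * H.index - 1)}.Finite :=
    Set.Finite.preimage (Subtype.val_injective.injOn) (posBall_finite hSf _)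
  have h3 := growth_gs x r hsurj hker he hρ hineq (hHQ.p p) h2 h1 k
  refine h3.trans ?_
  rw [Nat.cast_le, ← hH]
  exact ncard_posBall_le hSf H _ k

end Pool.Agent.X277.GS
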