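import Pool.Agent.X277.GS.Rel
import Pool.Agent.X277.PF.Free

/-!
# Growth of positive words and the Golod-Shafarevich inequality
-/

set_option autoImplicit false

open Set Function

noncomputable section

namespace Pool.Agent.X277.GS

open Pool.Agent.X277.PF

section words

variable {K B Λ : Type} [Field K] [Ring B] [Algebra K B] [Group Λ] (μ : Λ →* B) (S : Set Λ)

/-- the span of the positive words of length at most `k` -/
def PW (K : Type) {B Λ : Type} [Field K] [Ring B] [Algebra K B] [Group Λ] (μ : Λ →* B) (S : Set Λ)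
    (k : ℕ) : Submodule K B := Submodule.span K (μ '' posBall S k)

/-- the span of the `μ s - 1` -/
def LW (K : Type) {B Λ : Type} [Field K] [Ring B] [Algebra K B] [Group Λ] (μ : Λ →* B) (S : Set Λ) :
    Submodule K B := Submodule.span K ((fun s => μ s - 1) '' S)

theorem posBall_mono {k l : ℕ} (h : k ≤ l) : posBall S k ⊆ posBall S l := by
  rintro g ⟨w, h1, h2, h3⟩
  exact ⟨w, h1.trans h, h2, h3⟩

theorem PW_mono {k l : ℕ} (h : k ≤ l) : PW K μ S k ≤ PW K μ S l :=
  Submodule.span_mono (image_mono (posBall_mono S h))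

theorem PW_mul (k l : ℕ) : PW K μ S k * PW K μ S l ≤ PW K μ S (k + l) := by
  rw [PW, PW, Submodule.span_mul_span]
  apply Submodule.span_mono
  rintro _ ⟨_, ⟨a, ⟨w, h1, h2, rfl⟩, rfl⟩, _, ⟨b, ⟨w', h1', h2', rfl⟩, rfl⟩, rfl⟩
  refine ⟨(w ++ w').prod, ⟨w ++ w', by rw [List.length_append]; omega, ?_, rfl⟩, ?_⟩
  · intro x hx
    rcases List.mem_append.1 hx with h | h
    · exact h2 x h
    · exact h2' x h
  · rw [List.prod_append, map_mul]

theorem one_le_PW (k : ℕ) : 1 ≤ PW K μ S k := by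
  rw [Submodule.one_le]
  exact Submodule.subset_span ⟨1, ⟨[], Nat.zero_le _, by simp, rfl⟩, map_one μ⟩

theorem LW_le : LW K μ S ≤ PW K μ S 1 := by
  rw [LW, Submodule.span_le]
  rintro _ ⟨s, hs, rfl⟩
  refine Submodule.sub_mem _ (Submodule.subset_span ⟨s, ⟨[s], le_rfl, by simpa using hs, by simp⟩, rfl⟩) ?_
  exact Submodule.one_le.1 (one_le_PW μ S 1)

theorem LW_pow_le (k : ℕ) : LW K μ S ^ k ≤ PW K μ S k := by
  induction k with
  | zero =>
    rw [pow_zero]
    exact one_le_PW μ S 0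
  | succ k ih =>
    rw [pow_succ]
    exact (mul_le_mul' ih (LW_le μ S)).trans (PW_mul μ S k 1)

theorem le_LW (hS : Subgroup.closure S = ⊤) (J : Submodule K B) (hμ : ∀ g, μ g - 1 ∈ J)
    (hJ : J ≤ Submodule.span K (range fun g => μ g - 1)) : J ≤ LW K μ S ⊔ J * J := by
  refine hJ.trans ?_
  rw [Submodule.span_le]
  let H : Subgroup Λ :=
    { carrier := {g | μ g - 1 ∈ LW K μ S ⊔ J * J}
      mul_mem' := by
        intro a b ha hb
        show μ (a * b) - 1 ∈ LW K μ S ⊔ J * J
        have h1 : μ (a * b) - 1 = (μ a - 1) * (μ b - 1) + (μ a - 1) + (μ b - 1) := by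
          rw [map_mul]
          simp only [sub_mul, mul_sub, mul_one, one_mul]
          abel
        rw [h1]
        exact Submodule.add_mem _ (Submodule.add_mem _
          (Submodule.mem_sup_right (Submodule.mul_mem_mul (hμ a) (hμ b))) ha) hb
      one_mem' := by
        show μ 1 - 1 ∈ LW K μ S ⊔ J * J
        rw [map_one, sub_self]
        exact Submodule.zero_mem _
      inv_mem' := by
        intro a ha
        show μ a⁻¹ - 1 ∈ LW K μ S ⊔ J * J
        have h2 : μ a⁻¹ * μ a = 1 := by rw [← map_mul, inv_mul_cancel, map_one]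
        have h1 : μ a⁻¹ - 1 = -(μ a - 1) - (μ a⁻¹ - 1) * (μ a - 1) := by
          simp only [sub_mul, mul_sub, mul_one, one_mul, h2]
          abel
        rw [h1]
        exact Submodule.sub_mem _ (Submodule.neg_mem _ ha)
          (Submodule.mem_sup_right (Submodule.mul_mem_mul (hμ a⁻¹) (hμ a))) }
  have hH : Subgroup.closure S ≤ H := by
    rw [Subgroup.closure_le]
    intro s hs
    exact Submodule.mem_sup_left (Submodule.subset_span ⟨s, hs, rfl⟩)
  rintro _ ⟨g, rfl⟩
  exact hH (hS ▸ Subgroup.mem_top g)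

/-- **Positive words span.** -/
theorem span_words (hS : Subgroup.closure S = ⊤) (J : Submodule K B) (hμ : ∀ g, μ g - 1 ∈ J)
    (hJ : J ≤ Submodule.span K (range fun g => μ g - 1)) (h1 : 1 ⊔ J = ⊤)
    (k : ℕ) : PW K μ S k ⊔ J ^ (k + 1) = ⊤ := by
  have hL := le_LW μ S hS J hμ hJ
  have hLJ : LW K μ S ≤ J := by
    rw [LW, Submodule.span_le]
    rintro _ ⟨s, _, rfl⟩
    exact hμ s
  have hLJk : ∀ k, LW K μ S ^ k ≤ J ^ k := by
    intro k
    induction k with
    | zero => rw [pow_zero, pow_zero]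
    | succ k ih =>
      rw [pow_succ, pow_succ]
      exact mul_le_mul' ih hLJ
  have hpow : ∀ k, J ^ (k + 1) ≤ LW K μ S ^ (k + 1) ⊔ J ^ (k + 2) := by
    intro k
    induction k with
    | zero =>
      rw [zero_add, zero_add, pow_one, pow_one, pow_two]
      exact hL
    | succ k ih =>
      calc J ^ (k + 1 + 1) = J ^ (k + 1) * J := pow_succ _ _
        _ ≤ (LW K μ S ^ (k + 1) ⊔ J ^ (k + 2)) * J := mul_le_mul' ih le_rfl
        _ = LW K μ S ^ (k + 1) * J ⊔ J ^ (k + 2) * J := Submodule.sup_mul _ _ _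
        _ ≤ LW K μ S ^ (k + 1 + 1) ⊔ J ^ (k + 1 + 2) := by
          refine sup_le ?_ ?_
          · calc LW K μ S ^ (k + 1) * J ≤ LW K μ S ^ (k + 1) * (LW K μ S ⊔ J * J) :=
                  mul_le_mul' le_rfl hL
              _ = LW K μ S ^ (k + 1) * LW K μ S ⊔ LW K μ S ^ (k + 1) * (J * J) :=
                  Submodule.mul_sup _ _ _
              _ ≤ _ := by
                refine sup_le_sup ?_ ?_
                · rw [pow_succ _ (k + 1)]
                · calc LW K μ S ^ (k + 1) * (J * J) ≤ J ^ (k + 1) * (J * J) :=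
                        mul_le_mul' (hLJk _) le_rfl
                    _ = J ^ (k + 1 + 2) := by rw [pow_add _ (k + 1) 2, pow_two]
          · refine le_sup_of_le_right ?_
            rw [show k + 1 + 2 = (k + 2) + 1 by ring, pow_succ _ (k + 2)]
  induction k with
  | zero =>
    rw [zero_add, pow_one, eq_top_iff, ← h1]
    exact sup_le_sup (one_le_PW μ S 0) le_rfl
  | succ k ih =>
    rw [eq_top_iff, ← ih]
    refine sup_le ((PW_mono μ S (Nat.le_succ k)).trans le_sup_left) ?_
    exact (hpow k).trans (sup_le_sup (LW_pow_le μ S (k + 1)) le_rfl)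

end words

section final

variable {p : ℕ} {Γ : Type} [Group Γ]

/-- the quotient ring -/
abbrev BR (p : ℕ) (Γ : Type) [Group Γ] (k : ℕ) : Type := KG p Γ ⧸ (AI p Γ ^ (k + 1))

/-- the quotient map -/
def mkB (p : ℕ) (Γ : Type) [Group Γ] (k : ℕ) : KG p Γ →ₐ[ZMod p] BR p Γ k :=
  Ideal.Quotient.mkₐ (ZMod p) _

theorem mkB_eq_zero {k : ℕ} {a : KG p Γ} (h : a ∈ AI p Γ ^ (k + 1)) : mkB p Γ k a = 0 :=
  Ideal.Quotient.eq_zero_iff_mem.2 h

theorem mkB_surj (k : ℕ) : Surjective (mkB p Γ k) := Ideal.Quotient.mk_surjective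

/-- the group acting -/
def fB (p : ℕ) (Γ : Type) [Group Γ] (k : ℕ) : Γ →* BR p Γ k :=
  (mkB p Γ k : KG p Γ →* BR p Γ k).comp (MonoidAlgebra.of (ZMod p) Γ)

theorem fB_apply (k : ℕ) (g : Γ) : fB p Γ k g = mkB p Γ k (ge p g) := rfl

theorem finrank_BR (k : ℕ) : Module.finrank (ZMod p) (BR p Γ k) = b p Γ (k + 1) :=
  (Submodule.Quotient.restrictScalarsEquiv (ZMod p) (AI p Γ ^ (k + 1))).finrank_eq.symm

theorem finite_BR [Fact p.Prime] {d : ℕ} (x : Fin d → Γ) (hx : Subgroup.closure (range x) = ⊤)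
    (k : ℕ) : Finite (BR p Γ k) := by
  have := finite_Q (p := p) x hx (k + 1)
  have h1 : Finite (Q p Γ (k + 1)) := Module.finite_of_finite (ZMod p)
  exact @Finite.of_equiv _ _ h1
    (Submodule.Quotient.restrictScalarsEquiv (ZMod p) (AI p Γ ^ (k + 1))).toEquiv

theorem pow_mem_AI {a : KG p Γ} (h : a ∈ AI p Γ) (n : ℕ) : a ^ n ∈ AI p Γ ^ n := by
  induction n with
  | zero =>
    rw [Submodule.pow_zero, Ideal.one_eq_top]
    trivial
  | succ n ih =>
    rw [Ideal.IsTwoSided.pow_add, Submodule.pow_one, pow_succ]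
    exact Ideal.mul_mem_mul ih h

theorem fB_pow [Fact p.Prime] (k : ℕ) (g : Γ) : fB p Γ k g ^ p ^ (k + 1) = 1 := by
  have hch : CharP (KG p Γ) p :=
    charP_of_injective_algebraMap (algebraMap (ZMod p) (KG p Γ)).injective p
  have h1 : (ge p g - 1) ^ p ^ (k + 1) = ge p g ^ p ^ (k + 1) - 1 := by
    rw [sub_pow_char_pow_of_commute _ _ (Commute.one_right _), one_pow]
  have h2 : (ge p g - 1) ^ p ^ (k + 1) ∈ AI p Γ ^ (k + 1) :=
    Ideal.pow_le_pow_right (Nat.lt_pow_self (Fact.out : p.Prime).one_lt).le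
      (pow_mem_AI (ge_sub_mem g) _)
  rw [h1] at h2
  have h3 := mkB_eq_zero h2
  rw [map_sub, map_pow, map_one, sub_eq_zero] at h3
  exact h3

/-- **Growth.** -/
theorem growth_gs [Fact p.Prime] {Λ : Type} [Group Λ] {d m e : ℕ} (x : Fin d → Γ)
    (r : Fin m → FreeGroup (Fin d)) (hsurj : Surjective (FreeGroup.lift x))
    (hker : (FreeGroup.lift x).ker = Subgroup.normalClosure (range r))
    (he : Nat.card (Γ →* Multiplicative (ZMod p)) = p ^ e) {ρ : ℝ} (hρ : 0 < ρ)
    (h : ρ ^ 2 + (m + e - d) ≤ e * ρ) (hΛ : HasPQuotientsOf p Λ Γ) {S : Set Λ} (hSf : S.Finite)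
    (hS : Subgroup.closure S = ⊤) (k : ℕ) :
    ∑ i ∈ Finset.range (k + 1), ρ ^ i ≤ (posBall S k).ncard := by
  have hx : Subgroup.closure (range x) = ⊤ := by
    rw [← FreeGroup.range_lift_eq_closure]
    exact MonoidHom.range_eq_top.2 hsurj
  obtain ⟨s, hs, hineq⟩ := gs_ineq' x r hsurj hker he
  have hs' : (s : ℝ) = m + e - d := by
    have : (s : ℝ) + d = m + e := by exact_mod_cast hs
    linarith
  have hb0 : b p Γ 0 = 0 := by
    have h1 : Subsingleton (Q p Γ 0) := by
      rw [Submodule.Quotient.subsingleton_iff, eq_top_iff]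
      intro a _
      rw [mem_IK, Submodule.pow_zero, Ideal.one_eq_top]
      trivial
    exact Module.finrank_zero_of_subsingleton
  refine (b_lower (s := s) hρ (by rw [hs']; exact h) (one_le_b x hx 0) hb0 hineq (k + 1)).trans ?_
  rw [Nat.cast_le]
  -- the finite `p`-group
  have hBfin : Finite (BR p Γ k) := finite_BR x hx k
  set G := (fB p Γ k).toHomUnits.range with hG
  have hGp : IsPGroup p G := by
    rintro ⟨_, g, rfl⟩
    refine ⟨k + 1, Subtype.ext (Units.ext ?_)⟩
    exact fB_pow k g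
  obtain ⟨π, hπ⟩ := hΛ G hGp ⟨(fB p Γ k).toHomUnits.rangeRestrict,
    (fB p Γ k).toHomUnits.rangeRestrict_surjective⟩
  let μ : Λ →* BR p Γ k := (Units.coeHom _).comp (G.subtype.comp π)
  let J : Submodule (ZMod p) (BR p Γ k) :=
    Submodule.span (ZMod p) (range fun g : Γ => fB p Γ k g - 1)
  have hμ : ∀ g, μ g - 1 ∈ J := by
    intro g
    obtain ⟨y, hy⟩ := (π g).2
    have h1 : μ g = fB p Γ k y := by
      show (((π g : G) : (BR p Γ k)ˣ) : BR p Γ k) = _
      rw [← hy]
      rfl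
    rw [h1]
    exact Submodule.subset_span ⟨y, rfl⟩
  have hJ : J ≤ Submodule.span (ZMod p) (range fun g => μ g - 1) := by
    apply Submodule.span_mono
    rintro _ ⟨y, rfl⟩
    obtain ⟨g, hg⟩ := hπ ⟨(fB p Γ k).toHomUnits y, y, rfl⟩
    refine ⟨g, ?_⟩
    show (((π g : G) : (BR p Γ k)ˣ) : BR p Γ k) - 1 = _
    rw [hg]
    rfl
  have h1 : 1 ⊔ J = ⊤ := by
    rw [eq_top_iff]
    intro y _
    obtain ⟨a, rfl⟩ := mkB_surj k y
    induction a using MonoidAlgebra.induction_on with
    | of g =>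
      have : mkB p Γ k (MonoidAlgebra.of (ZMod p) Γ g) = 1 + (fB p Γ k g - 1) := by
        rw [fB_apply]
        abel
      rw [this]
      exact Submodule.add_mem _ (Submodule.mem_sup_left (Submodule.one_le.1 le_rfl))
        (Submodule.mem_sup_right (Submodule.subset_span ⟨g, rfl⟩))
    | add a c ha hc =>
      rw [map_add]
      exact Submodule.add_mem _ (ha trivial) (hc trivial)
    | smul c a ha =>
      rw [map_smul]
      exact Submodule.smul_mem _ _ (ha trivial)
  have hJpow : ∀ n, J ^ n ≤ Submodule.map (mkB p Γ k).toLinearMap (IK p Γ n) := by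
    intro n
    induction n with
    | zero =>
      intro y _
      obtain ⟨a, rfl⟩ := mkB_surj k y
      refine ⟨a, ?_, rfl⟩
      show a ∈ AI p Γ ^ 0
      rw [Submodule.pow_zero, Ideal.one_eq_top]
      trivial
    | succ n ih =>
      rw [pow_succ, Submodule.mul_le]
      intro y hy z hz
      obtain ⟨a, ha, rfl⟩ := ih hy
      have h2 : J ≤ Submodule.map (mkB p Γ k).toLinearMap (IK p Γ 1) := by
        rw [Submodule.span_le]
        rintro _ ⟨g, rfl⟩
        refine ⟨ge p g - 1, ?_, ?_⟩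
        · show ge p g - 1 ∈ AI p Γ ^ 1
          rw [Submodule.pow_one]
          exact ge_sub_mem g
        · show mkB p Γ k (ge p g - 1) = fB p Γ k g - 1
          rw [map_sub, map_one]
          rfl
      obtain ⟨c, hc, rfl⟩ := h2 hz
      have hc' : c ∈ AI p Γ := by
        have h3 : c ∈ AI p Γ ^ 1 := hc
        rwa [Submodule.pow_one] at h3
      exact ⟨a * c, IK_mul_succ ha hc', map_mul (mkB p Γ k) a c⟩
  have hJ0 : J ^ (k + 1) = ⊥ := by
    rw [eq_bot_iff]
    intro y hy
    obtain ⟨a, ha, rfl⟩ := hJpow (k + 1) hy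
    exact mkB_eq_zero ha
  have htop := span_words μ S hS J hμ hJ h1 k
  rw [hJ0, sup_bot_eq] at htop
  have hBall := posBall_finite hSf k
  have hfin : (μ '' posBall S k).Finite := hBall.image _
  have hrank : Module.finrank (ZMod p) (BR p Γ k) ≤ (μ '' posBall S k).ncard := by
    have := Fintype.ofFinite (μ '' posBall S k)
    rw [← finrank_top, ← htop]
    refine (finrank_span_le_card _).trans ?_
    rw [Set.ncard_eq_toFinset_card']
  rw [finrank_BR] at hrank
  exact hrank.trans (Set.ncard_image_le hBall)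

end final

end Pool.Agent.X277.GS
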