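import Pool.Agent.X277.GS.Dim

/-!
# The relation module and the first cohomology
-/

set_option autoImplicit false

open Set Function

noncomputable section

namespace Pool.Agent.X277.GS

variable {p : ℕ} {Γ : Type} [Group Γ] {d : ℕ} (x : Fin d → Γ)

/-- the exponent sums -/
def expo (p : ℕ) (x : Fin d → Γ) (w : FreeGroup (Fin d)) : Fin d → ZMod p :=
  fun i => aug p Γ (fox p x w i)

theorem expo_mul (u w : FreeGroup (Fin d)) : expo p x (u * w) = expo p x w + expo p x u := by
  funext i
  show aug p Γ (fox p x (u * w) i) = aug p Γ (fox p x w i) + aug p Γ (fox p x u i)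
  rw [fox_mul, Pi.add_apply, Pi.smul_apply, smul_eq_mul, map_add, map_mul, aug_ge, one_mul]

theorem expo_one : expo p x 1 = 0 := by
  funext i
  show aug p Γ (fox p x 1 i) = 0
  rw [fox_one, Pi.zero_apply, map_zero]

theorem expo_of (j : Fin d) : expo p x (FreeGroup.of j) = Pi.single j 1 := by
  funext i
  show aug p Γ (fox p x (FreeGroup.of j) i) = _
  rw [fox_of]
  by_cases h : i = j
  · subst h
    rw [Pi.single_eq_same, Pi.single_eq_same, map_one]
  · rw [Pi.single_eq_of_ne h, Pi.single_eq_of_ne h, map_zero]

/-- The value of a homomorphism to `Z/p`. -/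
theorem lift_expo (f : Fin d → ZMod p) (w : FreeGroup (Fin d)) :
    FreeGroup.lift (fun i => Multiplicative.ofAdd (f i)) w =
      Multiplicative.ofAdd (∑ i, expo p x w i * f i) := by
  let H : FreeGroup (Fin d) →* Multiplicative (ZMod p) :=
    { toFun := fun w => Multiplicative.ofAdd (∑ i, expo p x w i * f i)
      map_one' := by
        rw [expo_one]
        simp
      map_mul' := by
        intro u w
        rw [← ofAdd_add, expo_mul, ← Finset.sum_add_distrib]
        congr 1
        refine Finset.sum_congr rfl fun i _ => ?_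
        rw [Pi.add_apply]
        ring }
  have h1 : FreeGroup.lift (fun i => Multiplicative.ofAdd (f i)) = H := by
    ext j
    rw [FreeGroup.lift_apply_of]
    show f j = ∑ i, expo p x (FreeGroup.of j) i * f i
    rw [expo_of, Finset.sum_eq_single j]
    · rw [Pi.single_eq_same, one_mul]
    · intro i _ hij
      rw [Pi.single_eq_of_ne hij, zero_mul]
    · intro h
      exact absurd (Finset.mem_univ j) h
  rw [h1]
  rfl

variable {m : ℕ} (r : Fin m → FreeGroup (Fin d))

/-- the matrix of exponent sums of the relators -/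
def MX (p : ℕ) (x : Fin d → Γ) {m : ℕ} (r : Fin m → FreeGroup (Fin d)) :
    Matrix (Fin m) (Fin d) (ZMod p) := Matrix.of fun j => expo p x (r j)

/-- **The first cohomology.** -/
theorem card_hom [Fact p.Prime] (hsurj : Surjective (FreeGroup.lift x))
    (hker : (FreeGroup.lift x).ker = Subgroup.normalClosure (range r)) :
    Nat.card (Γ →* Multiplicative (ZMod p)) =
      p ^ Module.finrank (ZMod p) (LinearMap.ker (MX p x r).mulVecLin) := by
  have hr : ∀ j, FreeGroup.lift x (r j) = 1 := by
    intro j
    have : r j ∈ (FreeGroup.lift x).ker := by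
      rw [hker]
      exact Subgroup.subset_normalClosure ⟨j, rfl⟩
    exact this
  have hmem : ∀ f : Fin d → ZMod p, f ∈ LinearMap.ker (MX p x r).mulVecLin ↔
      ∀ j, FreeGroup.lift (fun i => Multiplicative.ofAdd (f i)) (r j) = 1 := by
    intro f
    rw [LinearMap.mem_ker, funext_iff]
    refine forall_congr' fun j => ?_
    rw [lift_expo x]
    exact Iff.rfl
  let Θ : (Γ →* Multiplicative (ZMod p)) → LinearMap.ker (MX p x r).mulVecLin := fun χ =>
    ⟨fun i => Multiplicative.toAdd (χ (x i)), (hmem _).2 fun j => by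
      have h1 : FreeGroup.lift (fun i => Multiplicative.ofAdd (Multiplicative.toAdd (χ (x i)))) =
          χ.comp (FreeGroup.lift x) := by
        ext i
        simp
      rw [h1, MonoidHom.comp_apply, hr, map_one]⟩
  have hΘ : Bijective Θ := by
    constructor
    · intro χ χ' h
      have h1 : χ.comp (FreeGroup.lift x) = χ'.comp (FreeGroup.lift x) := by
        ext i
        have h2 : Multiplicative.toAdd (χ (x i)) = Multiplicative.toAdd (χ' (x i)) :=
          congrFun (congrArg Subtype.val h) i
        simpa using h2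
      ext g
      obtain ⟨w, rfl⟩ := hsurj g
      exact congrArg _ (DFunLike.congr_fun h1 w)
    · rintro ⟨f, hf⟩
      have h1 := (hmem f).1 hf
      have h2 : (FreeGroup.lift x).ker ≤
          (FreeGroup.lift (fun i => Multiplicative.ofAdd (f i))).ker := by
        rw [hker]
        apply Subgroup.normalClosure_le_normal
        rintro _ ⟨j, rfl⟩
        exact h1 j
      let χ : Γ →* Multiplicative (ZMod p) :=
        (FreeGroup.lift x).liftOfRightInverse (surjInv hsurj) (surjInv_eq hsurj)
          ⟨FreeGroup.lift (fun i => Multiplicative.ofAdd (f i)), h2⟩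
      have hχ : ∀ w, χ (FreeGroup.lift x w) =
          FreeGroup.lift (fun i => Multiplicative.ofAdd (f i)) w :=
        MonoidHom.liftOfRightInverse_comp_apply _ _ _ _
      refine ⟨χ, Subtype.ext (funext fun i => ?_)⟩
      show Multiplicative.toAdd (χ (x i)) = f i
      have h3 := hχ (FreeGroup.of i)
      rw [FreeGroup.lift_apply_of, FreeGroup.lift_apply_of] at h3
      rw [h3]
      rfl
  rw [Nat.card_congr (Equiv.ofBijective Θ hΘ), Module.natCard_eq_pow_finrank (K := ZMod p),
    Nat.card_zmod]

/-- combinations of the Fox derivatives -/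
def LL (p : ℕ) (x : Fin d → Γ) {m : ℕ} (r : Fin m → FreeGroup (Fin d)) :
    (Fin m → ZMod p) →ₗ[ZMod p] (Fin d → KG p Γ) :=
  Fintype.linearCombination (ZMod p) fun j => fox p x (r j)

theorem aug_LL (c : Fin m → ZMod p) (i : Fin d) :
    aug p Γ (LL p x r c i) = (MX p x r).transpose.mulVec c i := by
  rw [LL, Fintype.linearCombination_apply, Finset.sum_apply, map_sum, Matrix.mulVec, dotProduct]
  refine Finset.sum_congr rfl fun j _ => ?_
  rw [Pi.smul_apply, map_smul, smul_eq_mul, mul_comm]
  rfl

/-- **The inequality in terms of the first cohomology.** -/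
theorem gs_ineq' [Fact p.Prime] (hsurj : Surjective (FreeGroup.lift x))
    (hker : (FreeGroup.lift x).ker = Subgroup.normalClosure (range r)) {e : ℕ}
    (he : Nat.card (Γ →* Multiplicative (ZMod p)) = p ^ e) :
    ∃ s : ℕ, s + d = m + e ∧
      ∀ n, e * b p Γ (n + 1) + 1 ≤ b p Γ (n + 2) + s * b p Γ n := by
  rw [card_hom x r hsurj hker] at he
  have he' := Nat.pow_right_injective (Fact.out : p.Prime).two_le he
  have h1 := LinearMap.finrank_range_add_finrank_ker (MX p x r).mulVecLin
  rw [he', Module.finrank_fin_fun] at h1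
  have h2 : Module.finrank (ZMod p) (LinearMap.range (MX p x r).mulVecLin) = (MX p x r).rank := rfl
  have h3 : Module.finrank (ZMod p) (LinearMap.range (MX p x r).transpose.mulVecLin) =
      (MX p x r).rank := Matrix.rank_transpose _
  set E := (MX p x r).transpose.mulVecLin with hE
  have h4 := LinearMap.finrank_range_add_finrank_ker E
  rw [h3, Module.finrank_fin_fun] at h4
  obtain ⟨C, hC⟩ := Submodule.exists_isCompl (LinearMap.ker E)
  have h5 := Submodule.finrank_add_eq_of_isCompl hC
  rw [Module.finrank_fin_fun] at h5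
  set s := Module.finrank (ZMod p) (LinearMap.ker E) with hs
  set t := Module.finrank (ZMod p) C with ht
  let bC : Module.Basis (Fin t) (ZMod p) C := Module.finBasisOfFinrankEq (ZMod p) C ht.symm
  let bK : Module.Basis (Fin s) (ZMod p) (LinearMap.ker E) :=
    Module.finBasisOfFinrankEq (ZMod p) _ hs.symm
  refine ⟨s, by omega, fun n => ?_⟩
  have h6 : ∀ a ∈ RM p x r, ∃ (u : Fin t → KG p Γ) (v : Fin s → KG p Γ),
      a = ∑ i, u i • LL p x r (bC i) + ∑ j, v j • LL p x r (bK j) := by
    intro a ha
    refine Submodule.span_induction ?_ ?_ ?_ ?_ ha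
    · rintro _ ⟨j, rfl⟩
      have h7 : fox p x (r j) = LL p x r (Pi.single j 1) := by
        rw [LL, Fintype.linearCombination_apply_single, one_smul]
      have h8 : (Pi.single j 1 : Fin m → ZMod p) ∈ LinearMap.ker E ⊔ C := by
        rw [hC.sup_eq_top]
        trivial
      obtain ⟨y, hy, z, hz, hyz⟩ := Submodule.mem_sup.1 h8
      refine ⟨fun i => bC.repr ⟨z, hz⟩ i • 1, fun i => bK.repr ⟨y, hy⟩ i • 1, ?_⟩
      have h9 : LL p x r z = ∑ i, (bC.repr ⟨z, hz⟩ i • (1 : KG p Γ)) • LL p x r (bC i) := by
        have h10 := congrArg (fun c : C => LL p x r c) (bC.sum_repr ⟨z, hz⟩)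
        simp only [Submodule.coe_sum, Submodule.coe_smul, map_sum, map_smul] at h10
        rw [← h10]
        exact Finset.sum_congr rfl fun i _ => by rw [smul_assoc, one_smul]
      have h10 : LL p x r y = ∑ i, (bK.repr ⟨y, hy⟩ i • (1 : KG p Γ)) • LL p x r (bK i) := by
        have h11 := congrArg (fun c : LinearMap.ker E => LL p x r c) (bK.sum_repr ⟨y, hy⟩)
        simp only [Submodule.coe_sum, Submodule.coe_smul, map_sum, map_smul] at h11
        rw [← h11]
        exact Finset.sum_congr rfl fun i _ => by rw [smul_assoc, one_smul]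
      show fox p x (r j) = _
      rw [h7, ← hyz, map_add, h9, h10, add_comm]
    · exact ⟨0, 0, by simp⟩
    · rintro _ _ _ _ ⟨u, v, rfl⟩ ⟨u', v', rfl⟩
      refine ⟨u + u', v + v', ?_⟩
      simp only [Pi.add_apply, add_smul, Finset.sum_add_distrib]
      abel
    · rintro c _ _ ⟨u, v, rfl⟩
      refine ⟨fun i => c * u i, fun i => c * v i, ?_⟩
      rw [smul_add, Finset.smul_sum, Finset.smul_sum]
      simp only [mul_smul]
  have h7 := gs_ineq x r hsurj hker (fun i => LL p x r (bC i)) (fun j => LL p x r (bK j)) (by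
    intro j l
    rw [mem_AI, aug_LL]
    have h8 : E (bK j : Fin m → ZMod p) = 0 := LinearMap.mem_ker.1 (bK j).2
    exact congrFun h8 l) h6 n
  have h8 : d = e + t := by omega
  rw [h8, add_mul] at h7
  omega

end Pool.Agent.X277.GS
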